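import Pool.Agent.H751.CH.LocMain

/-!
# Groups acting on CAT(0) cube complexes: local conditions on the half-spaces

`C` is any class of groups with the closure properties `ClosedA C`: closure under subgroups, finite
products, free products, overgroups of finite index, directed colimits, the extension criterion, and
closure under acylindrical actions on trees. All of this is known for the class of the groups which
satisfy the K-theoretic Farrell–Jones conjecture with coefficients in additive categories and finite
wreath products (acylindrical actions: Knopf).

`MedianCube V H`: `V` is the set of the vertices and `H` the set of the half-spaces of a CAT(0) cube
complex, which can have infinite dimension and need not be locally finite. Let the group `G` act on it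
with vertex stabilizers in `C`. An element `g` is bad for the half-space `h` (`Bad g h`) if `g h`
crosses `h` or is the complement of `h`. Suppose that

1. (`Sep C L h`) for every finitely generated subgroup `L` and every half-space `h` there is a
   homomorphism from `L` to a group `Q` in `C`, whose kernel contains no element that is bad for `h`, and
   such that for every `q` of infinite order in `Q` only finitely many powers of `q` are images of
   elements which are bad for `h`. (If `Q` is finite this says that a subgroup of finite index of `L`
   contains no bad element for `h`.)
2. (`Adm C L E`) for every finitely generated subgroup `L` and every finitely generated subgroup `E` of
   `L` which stabilizes a half-space one of the following holds: `E` is virtually cyclic and powers of an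
   element of infinite order of `E` are conjugate in `L` only if the exponents agree up to sign; or there is
   a homomorphism from a subgroup of finite index of `L` to a group `P` with finite kernel on `E`, where
   `P` is in `C` or embeds in `E`. (For instance `E` is a virtual retract of `L`, or is finite.)

Then `G` is in `C`. The action need be neither proper nor cocompact, the number of orbits of
hyperplanes is arbitrary, and it is not assumed that the stabilizers of half-spaces are in `C`.

Outline of the proof. Let `L` be finitely generated. Only finitely many `L`-orbits of hyperplanes
separate the `L`-orbit of a base point, and the vertices which are not separated from it by the other
hyperplanes form a convex subcomplex `W`. The product of the homomorphisms of (1) for representatives of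
these orbits has a kernel `N` such that no hyperplane of `W` crosses its `N`-translates. By the extension
criterion it suffices to show that `N` and the groups `N ⟨t⟩` are in `C`; a finitely generated subgroup
of `N ⟨t⟩` has, by the second part of (1), a subgroup of finite index such that no hyperplane in its
convex subcomplex crosses its translates. For such actions every orbit of hyperplanes gives actions on
dual trees of the stabilizers of the classes of vertices that are not separated by the orbits used
before, which ends with the vertex stabilizers (compare my theorems for MP_28303a_al and MP_8a3537_gt);
the edge stabilizers are shown to be in `C` by induction on the dimension. Each action on a tree satisfies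
the local conditions on the edge stabilizers in the theorem on trees of the library
(`LocalEdgeConditions`), after inducing homomorphisms from subgroups of finite index.
-/

set_option autoImplicit false

namespace Pool.Agent.Results.MP_5d3e93_al.CubicalLocalConditions

open Pool.Agent.H751.CH
open Q182.Cyl (ClosedA)

open Pointwise

theorem result (C : ∀ (G : Type) [Group G], Prop) (hC : ClosedA C) (G V : Type) [Group G]
    [MulAction G V] [Nonempty V] (H : Set (Set V)) (hH : MedianCube V H)
    (hinv : ∀ g : G, ∀ h ∈ H, g • h ∈ H)
    (hst : ∀ x : V, C (MulAction.stabilizer G x))
    (hsep : ∀ L : Subgroup G, L.FG → ∀ h ∈ H, Sep C L h)
    (hadm : ∀ h ∈ H, ∀ L E : Subgroup G, L.FG → E.FG → E ≤ L → E ≤ MulAction.stabilizer G h →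
      Adm C L E) : C G :=
  loc_main hC hH hinv hst hsep hadm

end Pool.Agent.Results.MP_5d3e93_al.CubicalLocalConditions
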