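import Pool.Agent.H416.KM.Fin
import Pool.Agent.H416.HCh
import Pool.Agent.H416.WR.Props

set_option autoImplicit false

/-!
# Chern characters of the K-groups of rings graded by a group, in all degrees: elements with linear or
# cohomologically finite centralisers

Let `G` be a group and `S = ⨁ S_g` a ring graded by `G`, for example a crossed product `B * G`, or the
endomorphism ring of an object of the category `𝒜[G]` of an additive `G`-category `𝒜`. Let `(Ω, δ, T)`
be a cycle in the sense of Connes over `S`. The values `T (s_0 δs_1 ⋯ δs_N)` on homogeneous elements
with product of degree conjugate to `g` make up its component at `g`. On the image of the assembly map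
of the Farrell-Jones conjecture with coefficients in `𝒜` the components at the elements `g` of infinite
order of the Chern characters `K_m → HC_{m+2j} ⊗ ℚ`, `j ≥ 0`, are zero; so they are zero if the
conjecture (surjectivity of the assembly map) is true. The conjecture is open for linear groups. We
prove this consequence for all rings `S` graded by `G`, all cycles and all `m`, if `g` is `Good`: `g` has
infinite order and each finitely generated subgroup `H` of `G` containing `g` has one of the properties

* `LinC`: the centraliser of `g` in `H` has a representation of finite degree over some field, of any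
  characteristic, in which `g` has infinite order;
* `CohC`: the centraliser of `g` in `H` has a homomorphism `f` to a group `C'` (for example to itself) such
  that `f g` is central of infinite order and `H^(2 j + 2)(C' / ⟨f g⟩; ℚ) = 0` for some `j ≥ 0`; for example
  this is so if `C' / ⟨f g⟩` has finite cohomological dimension over `ℚ`.

So all elements of infinite order are `Good` in the groups in the class `LinCls` of the groups such that in all
finitely generated subgroups the elements of infinite order have `LinC`. It contains all linear
groups over fields of any characteristic, the groups `Out(F_n)` and `Aut(F_n)`, the groups of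
automorphisms of finitely generated residually torsion-free nilpotent groups, and the groups of germs of
diffeomorphisms and of automorphisms of varieties fixing a point; and it is closed under subgroups,
overgroups of finite index, finite direct products, wreath products with finite groups, directed
unions, and extensions by finitely generated residually torsion-free nilpotent groups with trivial
centre, for example by free groups of finite rank `≥ 2` and fundamental groups of closed orientable
surfaces of genus `≥ 2`.
They are also `Good` in the groups such that the quotients of the centralisers have finite rational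
cohomological dimension.

**The K-groups.** For a ring `A` let `L A` be the ring of the polynomials `f` over `A` in a central
variable `t` with `f(0) = f(1)`, and `L^k A` its `k`-th iteration, the ring of the polynomials in
`t_1, …, t_k` which are equal at `t_i = 0` and at `t_i = 1`, for all `i` (the ring of the distinguished
elements of the datum `loops k`). For `m ≥ 1` the Chern characters
of `K_m(A)` factor through the Karoubi-Villamayor group `KV_m(A)` (since they factor through periodic
cyclic homology, which is homotopy invariant), and the elements of `KV_m(A)` are given by the invertible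
matrices over `L^(m-1) A` which are `1` at `t_i = 0` and `t_i = 1`, for all `i`. The elements of `K_0(A)` are
given by the idempotent matrices over `A = L^0 A`, and those of `K_{-r}(A)` by the idempotent matrices
over `A[ℤ^r]`, which is graded by `G` if `A` is.

**The Chern characters.** The cyclic cocycles of `S` of dimension `N` with rational values are given by
the cycles `(Ω, δ, T)` of Connes over `S` of dimension `N`, and functionals `f : M → ℚ` on the range `M` of
`T`. The ring `LΩ` of the forms `a + b dt` on the interval, `a, b ∈ Ω[t]`, `a(0) = a(1)`, with the total
differential and the trace `T(a + b dt) = ∫ T(b(t)) dt` is a cycle of dimension `N + 1` over `L S`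
(`Dat.loop`). The character of the class of an invertible matrix `u` over `L^k S` is a multiple of
`T_k((u⁻¹ δu) ^ (2 n + 1))`, where `2 n + 1 = N + k`, and the one of the class of an idempotent matrix `e` is a
multiple of `T_k(e (δe) ^ (2 n))`, `2 n = N + k`. (For all other `n` these values are zero.) `Dat.comp` is the
component of such a value at the class of `g`: the sum of the terms in which the product of the degrees
of the factors is a conjugate of `g`.

Idea of the proof. Odd characters are reduced to even ones by an idempotent over forms on the interval with
values in `2 × 2` matrices, higher dimensional cycles to traces by Fedosov's product. For traces one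
evaluates functions of closed polygons in `G` on `e ⊗ ⋯ ⊗ e`. The Euler class of the centraliser as an
extension by `g` is represented by the coboundary of a skew function `b` with `b(u, g v) = b(u, v) + 2`. The
evaluation of the Pfaffian of `b`, bordered by `1`, is a nonzero multiple of the trace at `g`, by a sign
reversing involution which uses rotations of polygons. For `LinC` the function `b` is
`tr (N (R_u R_v - R_v R_u))` for operators on a space of finite dimension (`N` the nilpotent part of
`g`), so its large Pfaffians are zero; in the case `CohC` the bordered Pfaffian is a coboundary.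
-/

namespace Pool.Agent.Results.MP_5d3e93_al.GradedCentralizers

open Pool.Agent.V11187.DG (Cyc)
open Pool.Agent.H881.LG11 (epsR)
open Pool.Agent.H416.HC (co)
open Pool.Agent.H416.LG (Good OnLinear)
open Pool.Agent.H416.WR (LinCls Closed Members)
open Pool.Agent.H416.KM (Datum Dat)

universe u v w x y z

section defs

variable {K : Type u} [CommRing K] {Ω : Type v} [Ring Ω] [Algebra K Ω] {G : Type w} [Group G]
  {M : Type x} [AddCommGroup M] [Module K M] {S : Type y} [Ring S]

/-- The cycle `(Ω, δ, T)` over the graded ring `S` with the functional `f`: all elements of `A = S` are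
distinguished, `epsR` is `(-1) ^ i` on the elements of degree `i`, and `σ : S → Ω[G]` maps an element
`s_h` of degree `h` to `ρ(s_h) h`. -/
noncomputable def datum (𝒜 : ℕ → Submodule K Ω) [GradedAlgebra 𝒜] (δ : Ω →ₗ[K] Ω) (T : Ω →ₗ[K] M)
    (σ : S →+* MonoidAlgebra Ω G) (f : M →+ ℚ) : Dat.{v, w, y} G where
  A := S
  P _ := True
  Ω := Ω
  ε := epsR 𝒜
  δ := δ
  T s := f (T s)
  σ := σ

theorem isCycle {𝒜 : ℕ → Submodule K Ω} [GradedAlgebra 𝒜] {δ : Ω →ₗ[K] Ω} {T : Ω →ₗ[K] M} {N : ℕ}
    (hc : Cyc N 𝒜 δ T) {σ : S →+* MonoidAlgebra Ω G}
    (hσ : ∀ a, σ a ∈ Pool.Agent.V11187.DG.Sg 𝒜 G 0) (f : M →+ ℚ) :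
    (⟨S, Ω, epsR 𝒜, δ.toAddMonoidHom, f.comp T.toAddMonoidHom, σ⟩ :
      Datum.{v, w, y} G).IsCycle N :=
  ⟨Pool.Agent.H416.KM.tr_of_cyc hc f,
    Pool.Agent.H416.KM.ev_of_mem (Ω := Ω) (𝒜 := 𝒜) (σ := σ) hσ⟩

end defs

/-- `S` is a ring graded by the group `G`, `(Ω, δ, T)` a cycle over `S` of dimension `N`, `f` a functional
on the range of `T`, and `k ≥ 0`.
(1) Let `g` be a `Good` element of `G`. The components at the class of `g` of the values of the trace `T_k`
on the idempotent matrices (if `N + k` is even) and on the invertible matrices (if `N + k` is odd) over
the ring `L^k S` are zero.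
(2) If all elements of infinite order of `G` are `Good`, then these values are the contributions of the
elements of finite order.
(3) An element `g` of `G` is `Good` if each finitely generated subgroup containing `g` is mapped to some
`GL_n(F)`, `F` a field, with image of `g` of infinite order, or if the image of `g` under a homomorphism
to a group in the class `LinCls` has infinite order. The class `LinCls` has the closure properties
`Closed` and contains the groups `Members`. -/
theorem result (G : Type w) [Group G] [DecidableEq G] (S : Type y) [Ring S]
    (𝒮 : G → AddSubgroup S) [DirectSum.Decomposition 𝒮] (h1 : (1 : S) ∈ 𝒮 1)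
    (hmul : ∀ g h : G, ∀ x ∈ 𝒮 g, ∀ y ∈ 𝒮 h, x * y ∈ 𝒮 (g * h))
    (K : Type u) [CommRing K] (Ω : Type v) [Ring Ω] [Algebra K Ω]
    (𝒜 : ℕ → Submodule K Ω) [GradedAlgebra 𝒜] (M : Type x) [AddCommGroup M] [Module K M]
    (δ : Ω →ₗ[K] Ω) (T : Ω →ₗ[K] M) (N : ℕ) (hc : Cyc N 𝒜 δ T) (ρ : S →+* Ω)
    (hρ : ∀ a, ρ a ∈ 𝒜 0) (f : M →+ ℚ) (k : ℕ) :
    (∀ g : G, Good.{w, z} G g →
      ((datum 𝒜 δ T (co 𝒮 h1 hmul ρ) f).loops k).Vanish (N + k) g) ∧
    ((∀ g : G, ¬ IsOfFinOrder g → Good.{w, z} G g) →
      ((datum 𝒜 δ T (co 𝒮 h1 hmul ρ) f).loops k).OnlyFinite (N + k)) ∧
    (∀ g : G, OnLinear.{w, z} G g → Good.{w, z} G g) ∧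
    (∀ (G' : Type w) [Group G'] (f : G →* G') (g : G), LinCls.{w, w} G' →
      ¬ IsOfFinOrder (f g) → Good.{w, w} G g) ∧ Closed.{w} ∧ Members.{w} := by
  have hσ : ∀ a, co 𝒮 h1 hmul ρ a ∈ Pool.Agent.V11187.DG.Sg 𝒜 G 0 :=
    Pool.Agent.H416.HC.co_mem 𝒮 h1 hmul hρ
  exact ⟨fun g hg => Pool.Agent.H416.KM.vanish_loops (Datum.sim _) (isCycle hc hσ f) hg k,
    fun hG => Pool.Agent.H416.KM.onlyFinite_loops (Datum.sim _) (isCycle hc hσ f) hG k,
    fun g hg => Good.of_linear hg,
    fun G' _ φ g h hg => Pool.Agent.H416.WR.good_of_hom φ g h hg,
    Pool.Agent.H416.WR.closed, Pool.Agent.H416.WR.members⟩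

end Pool.Agent.Results.MP_5d3e93_al.GradedCentralizers
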