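import Pool.Agent.H416.HCh

set_option autoImplicit false

/-!
# The Chern characters of `K_m`, `m ≥ 0`, of rings graded by a group

Let `G` be a group and `S = ⨁ S_g` a ring graded by `G`. For example let `S` be a crossed product
`B * G` or a twisted group ring, or the endomorphism ring of an object of the category `𝒜[G]` of an
additive `G`-category `𝒜`. Let `(Ω, δ, T)` be a cycle in the sense of Connes over `S`; its values
`T (s_0 δs_1 ⋯ δs_N)` on homogeneous elements with product of degree conjugate to `g` make up its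
component at `g`. On the image of the assembly map of the Farrell-Jones conjecture with coefficients
in `𝒜` the components at the elements `g` of infinite order of all Chern characters
`K_m → HC_{m+2j}`, `j ≥ 0`, are zero rationally; so the conjecture (surjectivity of the assembly map)
predicts that they are zero. We prove this consequence, for all `m ≥ 0`, all `j ≥ 0` and all graded
rings, if `g` is `Good`: it has infinite order in the abelianisation of its centraliser, or each
finitely generated subgroup of `G` containing `g` acts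

* by homeomorphisms on the circle such that the fixed point set of every element has finitely many
  boundary points, `g` acting by a homeomorphism of infinite order (`OnCircle`; for instance piecewise
  analytic homeomorphisms), or
* by isometries on a CAT(0) space or on a metric space of negative type (for instance subsets of
  `L^1`, real trees, median spaces) such that `g` has positive translation length, or on a space with
  walls such that `g` has an unbounded orbit.

No regularity of the coefficients is assumed. The elements `g` may be conjugate to `g ^ 2` and may be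
infinitely divisible.

`K_0` is represented by idempotent matrices `e`, with value `T (e (δe) ^ (2 m))`; `K_m`, `m ≥ 1`, by the
cycles `z` of Connes' complex of `ℤ[GL_d(S)]`, component of the class of `1`, in homogeneous notation.
-/

namespace Pool.Agent.Results.MP_5d3e93_al.GradedChernGeometric

open Pool.Agent.V11187.DG (Cyc compT dh)
open Pool.Agent.H416 (RC OnCircle OnCAT0 OnNegType OnWalls)
open Pool.Agent.H416.HC (IsCyclicCycle finT co)

universe u v w x y z

/-- `g` has infinite order in the abelianisation of its centraliser, or acts suitably on the circle,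
on a CAT(0) space, on a space of negative type or on a space with walls. -/
def Good (G : Type w) [Group G] (g : G) : Prop :=
  RC g ∨ OnCircle G g ∨ OnCAT0.{w, z} G g ∨ OnNegType.{w, z} G g ∨ OnWalls.{w, z} G g

section defs

variable {K : Type u} [CommRing K] {Ω : Type v} [Ring Ω] [Algebra K Ω] {G : Type w} [Group G]
  {M : Type x} [AddCommGroup M] [Module K M] {S : Type y} [Ring S]

/-- The matrix `e (δe) ^ (2 m)` over `Ω[G]`, where `σ : S → Ω[G]`, `s ↦ ∑ s_g g`. Its coefficient at
`h` is the part of degree `h`. -/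
noncomputable def wordE (δ : Ω →ₗ[K] Ω) (σ : S →+* MonoidAlgebra Ω G) (m : ℕ) {d : ℕ}
    (e : Matrix (Fin d) (Fin d) S) : Matrix (Fin d) (Fin d) (MonoidAlgebra Ω G) :=
  e.map σ * ((e.map σ).map (dh G δ)) ^ (2 * m)

/-- The matrix `γ_n⁻¹γ_0 δ(γ_0⁻¹γ_1) ⋯ δ(γ_{n-1}⁻¹γ_n)` over `Ω[G]`; its coefficient at `h` is the part of
degree `h`. -/
noncomputable def word (δ : Ω →ₗ[K] Ω) (σ : S →+* MonoidAlgebra Ω G) {d n : ℕ}
    (γ : Fin (n + 1) → (Matrix (Fin d) (Fin d) S)ˣ) :
    Matrix (Fin d) (Fin d) (MonoidAlgebra Ω G) :=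
  ((γ (Fin.last n))⁻¹ * γ 0).val.map σ * (List.ofFn fun i : Fin n =>
    ((((γ i.castSucc)⁻¹ * γ i.succ)).val.map σ).map (dh G δ)).prod

/-- The component at the conjugacy class of `g` of the value of the cycle `(Ω, δ, T)` on `z`. -/
noncomputable def component (δ : Ω →ₗ[K] Ω) (T : Ω →ₗ[K] M) (σ : S →+* MonoidAlgebra Ω G)
    {d n : ℕ} (z : (Fin (n + 1) → (Matrix (Fin d) (Fin d) S)ˣ) →₀ ℤ) (g : G) : M :=
  z.sum fun γ a => a • compT T (word δ σ γ) g

/-- The part of the elements of finite order of the value of the cycle `(Ω, δ, T)` on `z`. -/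
noncomputable def finitePart (δ : Ω →ₗ[K] Ω) (T : Ω →ₗ[K] M) (σ : S →+* MonoidAlgebra Ω G)
    {d n : ℕ} (z : (Fin (n + 1) → (Matrix (Fin d) (Fin d) S)ˣ) →₀ ℤ) : M :=
  z.sum fun γ a => a • finT T (word δ σ γ)

/-- The value of the cycle `(Ω, δ, T)` on `z`. -/
noncomputable def value (δ : Ω →ₗ[K] Ω) (T : Ω →ₗ[K] M) (ρ : S →+* Ω)
    {d n : ℕ} (z : (Fin (n + 1) → (Matrix (Fin d) (Fin d) S)ˣ) →₀ ℤ) : M :=
  z.sum fun γ a => a • T (((γ (Fin.last n))⁻¹ * γ 0).val.map ρ * (List.ofFn fun i : Fin n =>
    ((((γ i.castSucc)⁻¹ * γ i.succ)).val.map ρ).map δ).prod).trace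

end defs

/-- `S` is a ring graded by the group `G` and `(Ω, δ, T)` a cycle over `S` of any dimension.
(1) Let `g` be a `Good` element of `G`. The components at the class of `g` of the values on the
idempotent matrices over `S` and on the cycles of Connes' complex of `ℤ[GL_d(S)]` are torsion elements.
(2) If all elements of infinite order of `G` are `Good`, and the cycle has values in a torsion-free
group, then these values are the contributions of the elements of finite order. -/
theorem result (G : Type w) [Group G] [DecidableEq G] (S : Type y) [Ring S]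
    (𝒮 : G → AddSubgroup S) [DirectSum.Decomposition 𝒮] (h1 : (1 : S) ∈ 𝒮 1)
    (hmul : ∀ g h : G, ∀ x ∈ 𝒮 g, ∀ y ∈ 𝒮 h, x * y ∈ 𝒮 (g * h))
    (K : Type u) [CommRing K] (Ω : Type v) [Ring Ω] [Algebra K Ω]
    (𝒜 : ℕ → Submodule K Ω) [GradedAlgebra 𝒜] (M : Type x) [AddCommGroup M] [Module K M]
    (δ : Ω →ₗ[K] Ω) (T : Ω →ₗ[K] M) (N : ℕ) (hc : Cyc N 𝒜 δ T) (ρ : S →+* Ω)
    (hρ : ∀ a, ρ a ∈ 𝒜 0) (d : ℕ) :
    (∀ g : G, Good.{w, z} G g →
      (∀ (m : ℕ) (e : Matrix (Fin d) (Fin d) S), e * e = e →
        ∃ k : ℤ, k ≠ 0 ∧ k • compT T (wordE δ (co 𝒮 h1 hmul ρ) m e) g = 0) ∧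
      (∀ (n : ℕ) (z : (Fin (n + 2) → (Matrix (Fin d) (Fin d) S)ˣ) →₀ ℤ), IsCyclicCycle z →
        ∃ k : ℤ, k ≠ 0 ∧ k • component δ T (co 𝒮 h1 hmul ρ) z g = 0)) ∧
    ((∀ g : G, ¬ IsOfFinOrder g → Good.{w, z} G g) →
      (∀ (k : ℤ) (m : M), k ≠ 0 → k • m = 0 → m = 0) →
      (∀ (m : ℕ) (e : Matrix (Fin d) (Fin d) S), e * e = e →
        T (e.map ρ * ((e.map ρ).map δ) ^ (2 * m)).trace =
          finT T (wordE δ (co 𝒮 h1 hmul ρ) m e)) ∧
      (∀ (n : ℕ) (z : (Fin (n + 2) → (Matrix (Fin d) (Fin d) S)ˣ) →₀ ℤ), IsCyclicCycle z →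
        value δ T ρ z = finitePart δ T (co 𝒮 h1 hmul ρ) z)) := by
  have hgood : ∀ g : G, Good.{w, z} G g → RC g := by
    intro g hg
    rcases hg with h | h | h | h | h
    · exact h
    · exact (Pool.Agent.H416.Cls.loc_circle h).rc
    · exact (Pool.Agent.H416.Cls.loc_cat0 h).rc
    · exact (Pool.Agent.H416.Cls.loc_negType h).rc
    · exact (Pool.Agent.H416.Cls.loc_negType (Pool.Agent.H416.Cls.negType_of_walls h)).rc
  have hσ : ∀ a, co 𝒮 h1 hmul ρ a ∈ Pool.Agent.V11187.DG.Sg 𝒜 G 0 :=
    Pool.Agent.H416.HC.co_mem 𝒮 h1 hmul hρ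
  refine ⟨fun g hg => ⟨fun m e he => ?_, fun n z hz => ?_⟩,
    fun hG hM => ⟨fun m e he => ?_, fun n z hz => ?_⟩⟩
  · exact Pool.Agent.H416.HC.torsionI (hgood g hg) hc hσ e he m
  · exact Pool.Agent.H416.HC.torsionC (hgood g hg) hc hσ (Units.coeHom _) z hz
  · have h := Pool.Agent.H416.HC.valI_fin (fun g hg => hgood g (hG g hg)) hM hc hσ e he m
    rw [Pool.Agent.H416.HC.au_co] at h
    exact h
  · have h := Pool.Agent.H416.HC.valC_main (fun g hg => hgood g (hG g hg)) hM hc hσ
      (Units.coeHom _) z hz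
    rw [Pool.Agent.H416.HC.au_co] at h
    exact h

end Pool.Agent.Results.MP_5d3e93_al.GradedChernGeometric
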